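import Pool.Agent.NL.StmtsM

set_option autoImplicit false

open MeasureTheory Filter Topology Set

noncomputable section

namespace Pool.Agent.NL.H23

theorem vol_nb (n : ℕ) (w : ℝ) : (volume (nb n w)).toReal = 2 / ((n : ℝ) + 1) := by
  have h0 : (0 : ℝ) ≤ 2 / ((n : ℝ) + 1) := by positivity
  unfold nb
  rw [Real.volume_Icc]
  have : w + 1 / ((n : ℝ) + 1) - (w - 1 / ((n : ℝ) + 1)) = 2 / ((n : ℝ) + 1) := by ring
  rw [this, ENNReal.toReal_ofReal h0]

theorem nb_lt (n : ℕ) (w : ℝ) : volume (nb n w) < ⊤ := by simp [nb]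

theorem bd (h : ℝ → ℝ) (C : ℝ) (hb : ∀ x, |h x| ≤ C) (c x : ℝ) : |h x - c| ≤ C + |c| := by
  have := norm_sub_le (h x) c
  simp only [Real.norm_eq_abs] at this
  linarith [hb x]

theorem integ (h : ℝ → ℝ) (C : ℝ) (hm : Measurable h) (hb : ∀ x, |h x| ≤ C) (c : ℝ) (n : ℕ)
    (w : ℝ) : IntegrableOn (fun x => |h x - c|) (nb n w) := by
  refine Measure.integrableOn_of_bounded (M := C + |c|) (nb_lt n w).ne ?_ ?_
  · exact (measurable_norm.comp (hm.sub_const c)).aestronglyMeasurable
  · refine Eventually.of_forall fun x => ?_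
    rw [Real.norm_eq_abs, abs_abs]
    exact bd h C hb c x

theorem mrk : MrkStmt := by
  intro h C hm hb w c
  have hC : 0 ≤ C := (abs_nonneg _).trans (hb 0)
  have hC' : 0 ≤ C + |c| := by positivity
  have hmea : ∀ ε : ℝ, MeasurableSet {x | ε ≤ |h x - c|} := fun ε =>
    measurableSet_le measurable_const (measurable_norm.comp (hm.sub_const c))
  constructor
  · intro T
    rw [Metric.tendsto_nhds]
    intro ε hε
    change Tendsto (fun n : ℕ => ((n : ℝ) + 1) *
      (volume ({x | dist (h x) c < ε}ᶜ ∩ nb n w)).toReal) atTop (𝓝 0)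
    have hset : {x | dist (h x) c < ε}ᶜ = {x | ε ≤ |h x - c|} := by
      ext x
      simp [Real.dist_eq]
    rw [hset]
    have T2 := T.const_mul (1 / ε)
    rw [mul_zero] at T2
    refine squeeze_zero (fun n => by positivity) (fun n => ?_) T2
    have key := mul_meas_ge_le_integral_of_nonneg (μ := volume.restrict (nb n w))
      (f := fun x => |h x - c|) (Eventually.of_forall fun x => abs_nonneg _)
      (integ h C hm hb c n w) ε
    rw [Measure.real, Measure.restrict_apply (hmea ε)] at key
    have hn : (0 : ℝ) < (n : ℝ) + 1 := by positivity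
    have : (volume ({x | ε ≤ |h x - c|} ∩ nb n w)).toReal ≤
        1 / ε * ∫ x in nb n w, |h x - c| := by
      rw [one_div, ← div_eq_inv_mul, le_div_iff₀ hε]
      linarith
    calc ((n : ℝ) + 1) * (volume ({x | ε ≤ |h x - c|} ∩ nb n w)).toReal
        ≤ ((n : ℝ) + 1) * (1 / ε * ∫ x in nb n w, |h x - c|) :=
          mul_le_mul_of_nonneg_left this hn.le
      _ = 1 / ε * (((n : ℝ) + 1) * ∫ x in nb n w, |h x - c|) := by ring
  · intro T
    rw [Metric.tendsto_nhds] at T
    rw [Metric.tendsto_atTop]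
    intro δ hδ
    have T1 := T (δ / 4) (by positivity)
    change Tendsto (fun n : ℕ => ((n : ℝ) + 1) *
      (volume ({x | dist (h x) c < δ / 4}ᶜ ∩ nb n w)).toReal) atTop (𝓝 0) at T1
    have hset : {x | dist (h x) c < δ / 4}ᶜ = {x | δ / 4 ≤ |h x - c|} := by
      ext x
      simp [Real.dist_eq]
    rw [hset] at T1
    have T2 := T1.const_mul (C + |c|)
    rw [mul_zero, Metric.tendsto_atTop] at T2
    obtain ⟨N, hN⟩ := T2 (δ / 4) (by positivity)
    refine ⟨N, fun n hn => ?_⟩
    have h1 := hN n hn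
    rw [Real.dist_eq, sub_zero, abs_of_nonneg (by positivity)] at h1
    have hnp : (0 : ℝ) < (n : ℝ) + 1 := by positivity
    have hI : 0 ≤ ∫ x in nb n w, |h x - c| := integral_nonneg fun x => abs_nonneg _
    rw [Real.dist_eq, sub_zero, abs_of_nonneg (by positivity)]
    have hsplit := integral_inter_add_diff (μ := volume) (s := nb n w)
      (f := fun x => |h x - c|) (hmea (δ / 4)) (integ h C hm hb c n w)
    have hA : ∫ x in nb n w ∩ {x | δ / 4 ≤ |h x - c|}, |h x - c| ≤
        (C + |c|) * (volume ({x | δ / 4 ≤ |h x - c|} ∩ nb n w)).toReal := by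
      rw [inter_comm]
      refine (le_abs_self _).trans ?_
      have := norm_setIntegral_le_of_norm_le_const (μ := volume)
        (s := {x | δ / 4 ≤ |h x - c|} ∩ nb n w) (f := fun x => |h x - c|) (C := C + |c|)
        ((measure_mono inter_subset_right).trans_lt (nb_lt n w)) (fun x _ => by
          rw [Real.norm_eq_abs, abs_abs]
          exact bd h C hb c x)
      simpa [Measure.real] using this
    have hB : ∫ x in nb n w \ {x | δ / 4 ≤ |h x - c|}, |h x - c| ≤
        δ / 4 * (2 / ((n : ℝ) + 1)) := by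
      refine (le_abs_self _).trans ?_
      have := norm_setIntegral_le_of_norm_le_const (μ := volume)
        (s := nb n w \ {x | δ / 4 ≤ |h x - c|}) (f := fun x => |h x - c|) (C := δ / 4)
        ((measure_mono diff_subset).trans_lt (nb_lt n w)) (fun x hx => by
          rw [Real.norm_eq_abs, abs_abs]
          exact (not_le.1 hx.2).le)
      rw [Real.norm_eq_abs] at this
      refine this.trans ?_
      refine mul_le_mul_of_nonneg_left ?_ (by positivity)
      rw [← vol_nb n w, Measure.real]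
      exact ENNReal.toReal_mono (nb_lt n w).ne (measure_mono diff_subset)
    rw [← hsplit]
    have h2 : ((n : ℝ) + 1) * (δ / 4 * (2 / ((n : ℝ) + 1))) = δ / 2 := by
      field_simp
      ring
    have h3 : ((n : ℝ) + 1) * ((∫ x in nb n w ∩ {x | δ / 4 ≤ |h x - c|}, |h x - c|) +
        ∫ x in nb n w \ {x | δ / 4 ≤ |h x - c|}, |h x - c|) ≤
        ((n : ℝ) + 1) * ((C + |c|) * (volume ({x | δ / 4 ≤ |h x - c|} ∩ nb n w)).toReal +
          δ / 4 * (2 / ((n : ℝ) + 1))) :=
      mul_le_mul_of_nonneg_left (add_le_add hA hB) hnp.le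
    have h4 : ((n : ℝ) + 1) * ((C + |c|) * (volume ({x | δ / 4 ≤ |h x - c|} ∩ nb n w)).toReal +
          δ / 4 * (2 / ((n : ℝ) + 1))) =
        (C + |c|) * (((n : ℝ) + 1) * (volume ({x | δ / 4 ≤ |h x - c|} ∩ nb n w)).toReal) +
          δ / 2 := by
      rw [mul_add, h2]
      ring
    rw [h4] at h3
    linarith

end Pool.Agent.NL.H23
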